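import Mathlib
import Pool.Agent.V11221.OmegaOne

/-!
# A Menger space on which Bob wins `PONAG` but has no winning strategy in the Menger game
-/

namespace Pool.Agent.Results.MP_4977a6_gt.PonagNotMenger

open Set Filter Topology
open Pool.Agent.V11221.OmegaOne

/-! ## Definitions -/

/-- `𝒰` is an open cover of `X`. -/
def IsCover {X : Type*} [TopologicalSpace X] (𝒰 : Set (Set X)) : Prop :=
  (∀ U ∈ 𝒰, IsOpen U) ∧ ⋃₀ 𝒰 = Set.univ

/-- `X` is a Menger space. -/
def IsMenger (X : Type*) [TopologicalSpace X] : Prop :=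
  ∀ 𝒰 : ℕ → Set (Set X), (∀ n, IsCover (𝒰 n)) →
    ∃ ℱ : ℕ → Set (Set X), (∀ n, (ℱ n).Finite ∧ ℱ n ⊆ 𝒰 n) ∧ (⋃ n, ⋃₀ ℱ n) = Set.univ

/-- A strategy for Bob in a game in which in every round Alice makes a move in `A` and then Bob
makes a move in `B`: his move is a function of the finite sequence of the previous rounds and of
Alice's last move. -/
abbrev BobStrategy (A B : Type*) := List (A × B) → A → B

/-- The play `(a n, b n)` follows the strategy `σ` of Bob. -/
def Follows {A B : Type*} (σ : BobStrategy A B) (a : ℕ → A) (b : ℕ → B) : Prop :=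
  ∀ n, b n = σ ((List.range n).map fun i => (a i, b i)) (a n)

/-- Bob has a winning strategy in the Menger game: in each play in which Alice plays open covers
and which follows the strategy, Bob's answers are finite subfamilies of these covers and their
union covers `X`. -/
def BobWinsMenger (X : Type*) [TopologicalSpace X] : Prop :=
  ∃ σ : BobStrategy (Set (Set X)) (Set (Set X)), ∀ 𝒰 ℱ : ℕ → Set (Set X),
    (∀ n, IsCover (𝒰 n)) → Follows σ 𝒰 ℱ →
      (∀ n, (ℱ n).Finite ∧ ℱ n ⊆ 𝒰 n) ∧ (⋃ n, ⋃₀ ℱ n) = Set.univ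

/-- A partial open neighbourhood assignment `{V x : x ∈ Y}` is given by the set `Y` and a function
`V` (only whose values on `Y` matter). -/
structure Assignment (X : Type*) where
  /-- the set of points -/
  Y : Set X
  /-- the neighbourhoods -/
  V : X → Set X

/-- The union `V_D`. -/
def Assignment.un {X : Type*} (N : Assignment X) (D : Set X) : Set X := ⋃ x ∈ D, N.V x

/-- Alice's moves are legal in a play of `PONAG`: in round `n` she plays a partial open
neighbourhood assignment for points of `X ∖ ⋃_{k<n} V_{D_k}` whose members cover this set. -/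
def AliceLegal {X : Type*} [TopologicalSpace X] (N : ℕ → Assignment X) (D : ℕ → Set X) : Prop :=
  ∀ n, (N n).Y ⊆ (⋃ k < n, (N k).un (D k))ᶜ ∧
    (∀ x ∈ (N n).Y, IsOpen ((N n).V x) ∧ x ∈ (N n).V x) ∧
    (⋃ k < n, (N k).un (D k))ᶜ ⊆ (N n).un (N n).Y

/-- Bob has a winning strategy in the partial open neighbourhood assignment game. -/
def BobWinsPONAG (X : Type*) [TopologicalSpace X] : Prop :=
  ∃ σ : BobStrategy (Assignment X) (Set X), ∀ (N : ℕ → Assignment X) (D : ℕ → Set X),
    AliceLegal N D → Follows σ N D →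
      (∀ n, D n ⊆ (N n).Y ∧ IsClosed (D n) ∧ DiscreteTopology (D n)) ∧
        (⋃ n, (N n).un (D n)) = Set.univ

/-! ## The space -/

/-- The limits. -/
def Lim : Type := {δ : W // ∃ L, IsLadder L δ}

/-- The chosen ladder. -/
noncomputable def ladder (δ : Lim) : ℕ → W := δ.2.choose

theorem ladder_spec (δ : Lim) : IsLadder (ladder δ) δ.1 := δ.2.choose_spec

/-- The points of the space: the finite subsets of `ω₁` and the limits. -/
inductive X : Type
  | fin : Finset W → X
  | lim : Lim → X

/-- The subset of `ω₁` attached to a point: the finite set itself, or the ladder. -/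
noncomputable def S : X → Set W
  | X.fin F => (F : Set W)
  | X.lim δ => Set.range (ladder δ)

/-- The basic open sets. -/
def nb (y : X) (γ : W) : Set X := {z | ∀ a < γ, a ∈ S z ↔ a ∈ S y}

theorem mem_nb_self (y : X) (γ : W) : y ∈ nb y γ := fun _ _ => Iff.rfl

theorem nb_mono {y : X} {γ γ' : W} (h : γ ≤ γ') : nb y γ' ⊆ nb y γ :=
  fun _ hz a ha => hz a (ha.trans_le h)

theorem nb_subset {y z : X} {γ : W} (h : z ∈ nb y γ) : nb z γ ⊆ nb y γ :=
  fun _ hx a ha => (hx a ha).trans (h a ha)

theorem nb_symm {y z : X} {γ : W} (h : z ∈ nb y γ) : y ∈ nb z γ := fun a ha => (h a ha).symm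

instance : TopologicalSpace X where
  IsOpen U := ∀ y ∈ U, ∃ γ, nb y γ ⊆ U
  isOpen_univ _ _ := ⟨Classical.arbitrary W, Set.subset_univ _⟩
  isOpen_inter U V hU hV y hy := by
    obtain ⟨γ, hγ⟩ := hU y hy.1
    obtain ⟨γ', hγ'⟩ := hV y hy.2
    exact ⟨max γ γ', Set.subset_inter ((nb_mono (le_max_left _ _)).trans hγ)
      ((nb_mono (le_max_right _ _)).trans hγ')⟩
  isOpen_sUnion 𝒰 h := by
    rintro y ⟨U, hU, hy⟩
    obtain ⟨γ, hγ⟩ := h U hU y hy
    exact ⟨γ, fun z hz => ⟨U, hU, hγ hz⟩⟩

theorem isOpen_iff {U : Set X} : IsOpen U ↔ ∀ y ∈ U, ∃ γ, nb y γ ⊆ U := Iff.rfl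

theorem isOpen_nb (y : X) (γ : W) : IsOpen (nb y γ) :=
  isOpen_iff.2 fun _ hz => ⟨γ, nb_subset hz⟩

theorem S_injective : Function.Injective S := by
  intro y z h
  cases y with
  | fin F =>
    cases z with
    | fin G =>
      have : F = G := Finset.coe_injective h
      rw [this]
    | lim δ =>
      exfalso
      have h1 : (Set.range (ladder δ)).Infinite :=
        Set.infinite_range_of_injective (ladder_spec δ).1.injective
      apply h1
      change S (X.lim δ) |>.Finite
      rw [← h]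
      exact F.finite_toSet
  | lim δ =>
    cases z with
    | fin G =>
      exfalso
      have h1 : (Set.range (ladder δ)).Infinite :=
        Set.infinite_range_of_injective (ladder_spec δ).1.injective
      apply h1
      change S (X.lim δ) |>.Finite
      rw [h]
      exact G.finite_toSet
    | lim δ' =>
      have h1 : Set.range (ladder δ) = Set.range (ladder δ') := h
      have h2 : IsLadder (ladder δ) δ'.1 := by
        refine ⟨(ladder_spec δ).1, ?_, ?_⟩
        · intro n
          have : ladder δ n ∈ Set.range (ladder δ') := h1 ▸ ⟨n, rfl⟩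
          obtain ⟨m, hm⟩ := this
          rw [← hm]
          exact (ladder_spec δ').2.1 m
        · intro a ha
          obtain ⟨n, hn⟩ := (ladder_spec δ').2.2 a ha
          have : ladder δ' n ∈ Set.range (ladder δ) := h1.symm ▸ ⟨n, rfl⟩
          obtain ⟨m, hm⟩ := this
          exact ⟨m, hm ▸ hn⟩
      have h3 : δ.1 = δ'.1 := (ladder_spec δ).unique h2
      have : δ = δ' := Subtype.ext h3
      rw [this]

theorem exists_separate (y z : X) : ∃ γ, y ≠ z → z ∉ nb y γ := by
  by_cases h : y = z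
  · exact ⟨Classical.arbitrary W, fun h' => absurd h h'⟩
  · have h1 : S y ≠ S z := fun h' => h (S_injective h')
    have h2 : ∃ a, ¬ (a ∈ S z ↔ a ∈ S y) := by
      by_contra hcon
      push Not at hcon
      exact h1 (Set.ext fun a => (hcon a).symm)
    obtain ⟨a, ha⟩ := h2
    obtain ⟨γ, hγ⟩ := exists_bound (Set.countable_singleton a)
    exact ⟨γ, fun _ hz => ha (hz a (hγ a rfl))⟩

theorem isClosed_of_countable {D : Set X} (hD : D.Countable) : IsClosed D := by
  refine ⟨isOpen_iff.2 ?_⟩
  intro y hy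
  choose γ hγ using exists_separate y
  obtain ⟨b, hb⟩ := exists_bound (hD.image γ)
  refine ⟨b, ?_⟩
  intro z hz hzD
  have hne : y ≠ z := fun h => hy (h ▸ hzD)
  exact hγ z hne (nb_mono (hb _ ⟨z, hzD, rfl⟩).le hz)

theorem discrete_of_countable {D : Set X} (hD : D.Countable) : DiscreteTopology D := by
  rw [discreteTopology_iff_forall_isClosed]
  intro s
  have h1 : IsClosed (Subtype.val '' s : Set X) :=
    isClosed_of_countable (hD.mono (by
      rintro _ ⟨x, -, rfl⟩
      exact x.2))
  have h2 : s = Subtype.val ⁻¹' (Subtype.val '' s : Set X) :=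
    (Set.preimage_image_eq s Subtype.val_injective).symm
  rw [h2]
  exact h1.preimage continuous_subtype_val

/-- The initial parts below a bound are finite except for countably many points. -/
theorem exists_fin {y : X} {ρ : W} (hy : ∀ δ : Lim, y = X.lim δ → ρ < δ.1) :
    ∃ F : Finset W, (∀ a ∈ F, a < ρ) ∧ ∀ a < ρ, a ∈ F ↔ a ∈ S y := by
  classical
  cases y with
  | fin F =>
    refine ⟨F.filter (· < ρ), fun a ha => (Finset.mem_filter.1 ha).2, fun a ha => ?_⟩
    rw [Finset.mem_filter]
    exact ⟨fun h => h.1, fun h => ⟨h, ha⟩⟩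
  | lim δ =>
    obtain ⟨n, hn⟩ := (ladder_spec δ).2.2 ρ (hy δ rfl)
    refine ⟨((Finset.range n).image (ladder δ)).filter (· < ρ),
      fun a ha => (Finset.mem_filter.1 ha).2, fun a ha => ?_⟩
    rw [Finset.mem_filter, Finset.mem_image]
    constructor
    · rintro ⟨⟨m, -, rfl⟩, -⟩
      exact ⟨m, rfl⟩
    · rintro ⟨m, rfl⟩
      refine ⟨⟨m, ?_, rfl⟩, ha⟩
      rw [Finset.mem_range]
      exact (ladder_spec δ).1.lt_iff_lt.1 (ha.trans hn)

/-- The space is Lindelöf, in the following strong form. -/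
theorem lindelof (γ : X → W) : ∃ C : Set X, C.Countable ∧ ∀ y, ∃ c ∈ C, y ∈ nb c (γ c) := by
  obtain ⟨ρ, -, -, hρ⟩ := exists_closed (fun _ F => γ (X.fin F)) (Classical.arbitrary W)
  refine ⟨X.fin '' {F | ∀ a ∈ F, a ∈ Set.Iio ρ} ∪ {y | ∃ δ : Lim, δ.1 ≤ ρ ∧ y = X.lim δ}, ?_, ?_⟩
  · apply ((countable_finsets (countable_Iio ρ)).image _).union
    have h1 : {δ : Lim | δ.1 ≤ ρ}.Countable :=
      (countable_Iic ρ).preimage (f := fun δ : Lim => δ.1) Subtype.val_injective
    apply (h1.image X.lim).mono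
    rintro _ ⟨δ, hδ, rfl⟩
    exact ⟨δ, hδ, rfl⟩
  · intro y
    by_cases hy : ∃ δ : Lim, δ.1 ≤ ρ ∧ y = X.lim δ
    · exact ⟨y, Or.inr hy, mem_nb_self y _⟩
    · push Not at hy
      obtain ⟨F, hF1, hF2⟩ := exists_fin (y := y) (ρ := ρ) (fun δ hδ => by
        by_contra hcon
        push Not at hcon
        exact hy δ hcon hδ)
      refine ⟨X.fin F, Or.inl ⟨F, hF1, rfl⟩, ?_⟩
      intro a ha
      have h1 : γ (X.fin F) < ρ := hρ [] F (by simp) hF1
      exact (hF2 a (ha.trans h1)).symm

theorem isMenger : IsMenger X := by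
  intro 𝒰 h𝒰
  have h1 : ∀ (n : ℕ) (y : X), ∃ U ∈ 𝒰 n, ∃ γ, nb y γ ⊆ U := by
    intro n y
    have : y ∈ ⋃₀ 𝒰 n := (h𝒰 n).2 ▸ Set.mem_univ y
    obtain ⟨U, hU, hy⟩ := this
    exact ⟨U, hU, isOpen_iff.1 ((h𝒰 n).1 U hU) y hy⟩
  choose U hU γ hγ using h1
  have h2 : ∀ y, ∃ b, ∀ n, γ n y < b := fun y => exists_bound_fun fun n => γ n y
  choose b hb using h2
  obtain ⟨C, hC, hcov⟩ := lindelof b
  have hne : C.Nonempty := by
    obtain ⟨c, hc, -⟩ := hcov (X.fin ∅)
    exact ⟨c, hc⟩
  obtain ⟨c, rfl⟩ := hC.exists_eq_range hne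
  refine ⟨fun n => (fun k => U n (c k)) '' Set.Iic n, fun n => ⟨(Set.finite_Iic n).image _, ?_⟩, ?_⟩
  · rintro _ ⟨k, -, rfl⟩
    exact hU n (c k)
  · apply Set.eq_univ_of_forall
    intro y
    obtain ⟨_, ⟨k, rfl⟩, hk⟩ := hcov y
    refine Set.mem_iUnion.2 ⟨k, U k (c k), ⟨k, Set.mem_Iic.2 le_rfl, rfl⟩, ?_⟩
    exact hγ k (c k) (nb_mono (hb (c k) k).le hk)

/-- Bob wins `PONAG` (in one move). -/
theorem bobWinsPONAG : BobWinsPONAG X := by
  classical
  refine ⟨fun _ N => if h : ∃ D : Set X, D.Countable ∧ D ⊆ N.Y ∧ N.un D = Set.univ then h.choose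
    else ∅, ?_⟩
  intro N D hN hD
  have hD' : ∀ n, D n = if h : ∃ D : Set X, D.Countable ∧ D ⊆ (N n).Y ∧
      (N n).un D = Set.univ then h.choose else ∅ := fun n => hD n
  have key : ∀ n, (D n).Countable ∧ D n ⊆ (N n).Y := by
    intro n
    rw [hD' n]
    split_ifs with h
    · exact ⟨h.choose_spec.1, h.choose_spec.2.1⟩
    · exact ⟨Set.countable_empty, Set.empty_subset _⟩
  refine ⟨fun n => ⟨(key n).2, isClosed_of_countable (key n).1, discrete_of_countable (key n).1⟩, ?_⟩
  apply Set.eq_univ_of_univ_subset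
  refine Set.Subset.trans ?_ (Set.subset_iUnion _ 0)
  have h0 : ∃ D : Set X, D.Countable ∧ D ⊆ (N 0).Y ∧ (N 0).un D = Set.univ := by
    obtain ⟨-, h1, h2⟩ := hN 0
    have h3 : ∀ y : X, ∃ x ∈ (N 0).Y, ∃ γ, nb y γ ⊆ (N 0).V x := by
      intro y
      have : y ∈ (N 0).un (N 0).Y := h2 (by simp)
      simp only [Assignment.un, Set.mem_iUnion] at this
      obtain ⟨x, hx, hy⟩ := this
      exact ⟨x, hx, isOpen_iff.1 (h1 x hx).1 y hy⟩
    choose x hx γ hγ using h3
    obtain ⟨C, hC, hcov⟩ := lindelof γ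
    refine ⟨x '' C, hC.image x, ?_, ?_⟩
    · rintro _ ⟨c, -, rfl⟩
      exact hx c
    · apply Set.eq_univ_of_forall
      intro y
      obtain ⟨c, hc, hy⟩ := hcov y
      exact Set.mem_biUnion ⟨c, hc, rfl⟩ (hγ c hy)
  rw [hD' 0, dif_pos h0]
  exact h0.choose_spec.2.2.ge

/-! ## Bob has no winning strategy in the Menger game -/

/-- The covers Alice plays: the partitions by the restrictions to `γ`. -/
def lev (γ : W) : Set (Set X) := Set.range fun y => nb y γ

theorem isCover_lev (γ : W) : IsCover (lev γ) := by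
  refine ⟨?_, Set.eq_univ_of_forall fun y => ⟨nb y γ, ⟨y, rfl⟩, mem_nb_self y γ⟩⟩
  rintro _ ⟨y, rfl⟩
  exact isOpen_nb y γ

/-- The history of the play in which Alice plays `lev γ` for the `γ` in the list `l`. -/
def hist (σ : BobStrategy (Set (Set X)) (Set (Set X))) (l : List W) :
    List (Set (Set X) × Set (Set X)) :=
  l.foldl (fun acc γ => acc ++ [(lev γ, σ acc (lev γ))]) []

theorem hist_append (σ : BobStrategy (Set (Set X)) (Set (Set X))) (l : List W) (γ : W) :
    hist σ (l ++ [γ]) = hist σ l ++ [(lev γ, σ (hist σ l) (lev γ))] := by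
  simp [hist, List.foldl_append]

/-- The play in which Alice plays `lev (β n)`. -/
theorem hist_eq (σ : BobStrategy (Set (Set X)) (Set (Set X))) (β : ℕ → W) (n : ℕ) :
    (List.range n).map (fun i => (lev (β i), σ (hist σ ((List.range i).map β)) (lev (β i)))) =
      hist σ ((List.range n).map β) := by
  induction n with
  | zero => rfl
  | succ n ih =>
    rw [List.range_succ, List.map_append, ih, List.map_append, List.map_singleton,
      List.map_singleton, hist_append]

theorem follows (σ : BobStrategy (Set (Set X)) (Set (Set X))) (β : ℕ → W) :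
    Follows σ (fun n => lev (β n)) (fun n => σ (hist σ ((List.range n).map β)) (lev (β n))) := by
  intro n
  rw [hist_eq σ β n]

theorem not_bobWinsMenger : ¬ BobWinsMenger X := by
  classical
  rintro ⟨σ, hσ⟩
  -- the answers of Bob are finite
  have hfin : ∀ (h : List W) (γ : W), (σ (hist σ h) (lev γ)).Finite ∧
      σ (hist σ h) (lev γ) ⊆ lev γ := by
    intro h γ
    let β : ℕ → W := fun n => (h ++ [γ]).getD n γ
    have h1 := (hσ _ _ (fun n => isCover_lev (β n)) (follows σ β)).1 h.length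
    have h2 : (List.range h.length).map β = h := by
      apply List.ext_getElem
      · simp
      · intro i h1 h2
        simp only [List.getElem_map, List.getElem_range, β]
        rw [List.getD_eq_getElem?_getD, List.getElem?_append_left (by simpa using h2),
          List.getElem?_eq_getElem (by simpa using h2), Option.getD_some]
    have h3 : β h.length = γ := by
      simp [β]
    rw [h2, h3] at h1
    exact h1
  -- the finite sets which are always covered
  let K : List W → Set (Finset W) := fun h =>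
    {F | ∀ γ, (∀ a ∈ F, a < γ) → X.fin F ∈ ⋃₀ σ (hist σ h) (lev γ)}
  have hK : ∀ h, (K h).Finite := by
    intro h
    by_contra hinf
    have hinf' : (K h).Infinite := hinf
    let k : ℕ → Finset W := fun n => hinf'.natEmbedding _ n
    have hk : ∀ n, k n ∈ K h := fun n => (hinf'.natEmbedding _ n).2
    have hkinj : Function.Injective k := fun m n hmn =>
      (hinf'.natEmbedding _).injective (Subtype.ext hmn)
    obtain ⟨γ, hγ⟩ := exists_bound (s := ⋃ n, (k n : Set W))
      (Set.countable_iUnion fun n => (k n).countable_toSet)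
    have hγ' : ∀ n, ∀ a ∈ k n, a < γ := fun n a ha => hγ a (Set.mem_iUnion.2 ⟨n, ha⟩)
    have h1 : ∀ n, ∃ U ∈ σ (hist σ h) (lev γ), X.fin (k n) ∈ U := fun n => hk n γ (hγ' n)
    choose U hU1 hU2 using h1
    have hfinU : (Set.range U).Finite := (hfin h γ).1.subset (by
      rintro _ ⟨n, rfl⟩
      exact hU1 n)
    have hUinj : Function.Injective U := by
      intro m n hmn
      obtain ⟨y, hy⟩ := (hfin h γ).2 (hU1 m)
      have h2 : X.fin (k m) ∈ nb y γ := by
        have := hU2 m
        rwa [← hy] at this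
      have h3 : X.fin (k n) ∈ nb y γ := by
        have := hU2 n
        rwa [← hmn, ← hy] at this
      apply hkinj
      ext a
      constructor
      · intro ha
        exact ((h3 a (hγ' m a ha)).2 ((h2 a (hγ' m a ha)).1 ha))
      · intro ha
        exact ((h2 a (hγ' n a ha)).2 ((h3 a (hγ' n a ha)).1 ha))
    exact Set.infinite_range_of_injective hUinj hfinU
  -- the witness function
  have hc : ∀ (h : List W) (F : Finset W), ∃ γ, F ∉ K h →
      (∀ a ∈ F, a < γ) ∧ X.fin F ∉ ⋃₀ σ (hist σ h) (lev γ) := by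
    intro h F
    by_cases hF : F ∈ K h
    · exact ⟨Classical.arbitrary W, fun h' => absurd hF h'⟩
    · have hF' : ¬ ∀ γ, (∀ a ∈ F, a < γ) → X.fin F ∈ ⋃₀ σ (hist σ h) (lev γ) := hF
      push Not at hF'
      obtain ⟨γ, h1, h2⟩ := hF'
      exact ⟨γ, fun _ => ⟨h1, h2⟩⟩
  choose c hc using hc
  have hρ : ∀ (h : List W) (G : Finset W), ∃ ρ, (∀ a ∈ G, a < ρ) ∧
      ∀ F : Finset W, (∀ a ∈ F, a < ρ) → c h F < ρ := by
    intro h G
    obtain ⟨α, hα⟩ := exists_bound G.countable_toSet
    obtain ⟨ρ, h1, -, h2⟩ := exists_closed (fun _ F => c h F) α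
    exact ⟨ρ, fun a ha => (hα a ha).trans h1, fun F hF => h2 [] F (by simp) hF⟩
  choose ρ hρ1 hρ2 using hρ
  obtain ⟨δ, -, hδL, hδ⟩ := exists_closed ρ (Classical.arbitrary W)
  let δ' : Lim := ⟨δ, hδL⟩
  have hL := ladder_spec δ'
  -- the key claim
  have key : ∀ h : List W, ∃ γ, (∀ a ∈ h, a < δ) →
      (γ < δ ∧ X.lim δ' ∉ ⋃₀ σ (hist σ h) (lev γ)) := by
    intro h
    by_cases hh : ∀ a ∈ h, a < δ
    swap
    · exact ⟨Classical.arbitrary W, fun h' => absurd h' hh⟩
    by_contra hcon
    push Not at hcon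
    have hcov : ∀ γ < δ, X.lim δ' ∈ ⋃₀ σ (hist σ h) (lev γ) := fun γ hγ => (hcon γ).2 hγ
    let F : ℕ → Finset W := fun n => (Finset.range n).image (ladder δ')
    have hFcard : ∀ n, (F n).card = n := by
      intro n
      rw [Finset.card_image_of_injective _ hL.1.injective, Finset.card_range]
    obtain ⟨n₀, hn₀⟩ : ∃ n₀, ∀ n ≥ n₀, F n ∉ K h := by
      obtain ⟨N, hN⟩ := ((hK h).image Finset.card).bddAbove
      refine ⟨N + 1, fun n hn hnK => ?_⟩
      have := hN ⟨F n, hnK, rfl⟩
      rw [hFcard] at this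
      omega
    have hGδ : ∀ a ∈ F n₀, a < δ := by
      intro a ha
      obtain ⟨m, -, rfl⟩ := Finset.mem_image.1 ha
      exact hL.2.1 m
    have hρδ : ρ h (F n₀) < δ := hδ h (F n₀) hh hGδ
    have hstep : ∀ n ≥ n₀, (∀ a ∈ F n, a < ρ h (F n₀)) → ladder δ' n < ρ h (F n₀) := by
      intro n hn hFn
      have h1 := hρ2 h (F n₀) (F n) hFn
      obtain ⟨h2, h3⟩ := hc h (F n) (hn₀ n hn)
      by_contra hge
      push Not at hge
      apply h3
      obtain ⟨U, hU, hzU⟩ := hcov (c h (F n)) (h1.trans hρδ)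
      refine ⟨U, hU, ?_⟩
      obtain ⟨y, rfl⟩ := (hfin h _).2 hU
      refine nb_subset hzU ?_
      intro a ha
      change a ∈ F n ↔ a ∈ Set.range (ladder δ')
      constructor
      · intro haF
        obtain ⟨m, -, rfl⟩ := Finset.mem_image.1 haF
        exact ⟨m, rfl⟩
      · rintro ⟨m, rfl⟩
        refine Finset.mem_image.2 ⟨m, ?_, rfl⟩
        rw [Finset.mem_range]
        exact hL.1.lt_iff_lt.1 (ha.trans (h1.trans_le hge))
    have hall : ∀ n ≥ n₀, ∀ a ∈ F n, a < ρ h (F n₀) := by
      intro n hn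
      induction n, hn using Nat.le_induction with
      | base => exact hρ1 h (F n₀)
      | succ n hn ih =>
        intro a ha
        obtain ⟨m, hm, rfl⟩ := Finset.mem_image.1 ha
        rw [Finset.mem_range] at hm
        rcases Nat.lt_succ_iff_lt_or_eq.1 hm with hm | rfl
        · exact ih _ (Finset.mem_image.2 ⟨m, Finset.mem_range.2 hm, rfl⟩)
        · exact hstep _ hn ih
    obtain ⟨m, hm⟩ := hL.2.2 _ hρδ
    have h4 : ladder δ' (max m n₀) < ρ h (F n₀) :=
      hstep _ (le_max_right _ _) (hall _ (le_max_right _ _))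
    exact absurd (hm.trans_le (hL.1.monotone (le_max_left m n₀))) h4.asymm
  choose γ hγ using key
  -- Alice's play
  let hl : ℕ → List W := fun n => Nat.rec [] (fun _ l => l ++ [γ l]) n
  let β : ℕ → W := fun n => γ (hl n)
  have hhl : ∀ n, (List.range n).map β = hl n := by
    intro n
    induction n with
    | zero => rfl
    | succ n ih => rw [List.range_succ, List.map_append, ih]; rfl
  have hlδ : ∀ n, ∀ a ∈ hl n, a < δ := by
    intro n
    induction n with
    | zero => intro a ha; simp [hl] at ha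
    | succ n ih =>
      intro a ha
      have ha' : a ∈ hl n ++ [γ (hl n)] := ha
      rcases List.mem_append.1 ha' with h | h
      · exact ih a h
      · rw [List.mem_singleton.1 h]
        exact (hγ (hl n) ih).1
  have h1 := (hσ _ _ (fun n => isCover_lev (β n)) (follows σ β)).2
  have h2 : X.lim δ' ∈ ⋃ n, ⋃₀ σ (hist σ ((List.range n).map β)) (lev (β n)) := by
    rw [h1]
    exact Set.mem_univ _
  obtain ⟨n, hn⟩ := Set.mem_iUnion.1 h2
  rw [hhl] at hn
  exact (hγ (hl n) (hlδ n)).2 hn

/-- There is a Menger space (even a `T₁` Lindelöf `P`-space) on which Bob has a winning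
strategy in `PONAG` but no winning strategy in the Menger game. -/
theorem result : ∃ (X : Type) (_ : TopologicalSpace X), T1Space X ∧ IsMenger X ∧
    BobWinsPONAG X ∧ ¬ BobWinsMenger X :=
  ⟨X, inferInstance, ⟨fun _ => isClosed_of_countable (Set.countable_singleton _)⟩, isMenger,
    bobWinsPONAG, not_bobWinsMenger⟩

end Pool.Agent.Results.MP_4977a6_gt.PonagNotMenger
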